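import Pool.Agent.W422.GC.Stms

/-!
# GC-AI: algebraic independence over the constants of dual derivations
-/

set_option autoImplicit false

namespace Pool.Agent.W363.GC

open MvPolynomial

theorem chain {r : ℕ} (a : Fin r → ℂ) (δ : Fin r → Derivation ℤ ℂ ℂ)
    (hd : ∀ i j, δ i (a j) = if i = j then 1 else 0) (F : Subfield ℂ)
    (hF : ∀ i, ∀ x ∈ F, δ i x = 0) (i : Fin r) (h : MvPolynomial (Fin r) F) :
    δ i (aeval a h) = aeval a (pderiv i h) := by
  induction h using MvPolynomial.induction_on with
  | C c =>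
    rw [aeval_C, pderiv_C, map_zero]
    exact hF i _ c.2
  | add p q hp hq => rw [map_add, map_add, map_add, map_add, hp, hq]
  | mul_X p j hp =>
    rw [map_mul, aeval_X, Derivation.leibniz, hp, hd, Derivation.leibniz, map_add, pderiv_X]
    simp only [smul_eq_mul, map_mul, aeval_X]
    by_cases hij : i = j
    · subst hij
      simp
    · simp [hij, Pi.single_apply, Ne.symm hij]

theorem const_of {r : ℕ} (a : Fin r → ℂ) (F : Subfield ℂ) (h : MvPolynomial (Fin r) F)
    (hm : ∀ m, m ≠ 0 → coeff m h = 0) (h0 : aeval a h = 0) : h = 0 := by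
  have h1 : h = C (coeff 0 h) := by
    ext m
    rw [coeff_C]
    split_ifs with h2
    · rw [← h2]
    · rw [hm m (Ne.symm h2)]
  rw [h1, aeval_C] at h0
  have h3 : coeff 0 h = 0 := by
    have : Function.Injective (algebraMap F ℂ) := (algebraMap F ℂ).injective
    exact this (by rw [h0, map_zero])
  rw [h1, h3, map_zero]

theorem deg_ind {r : ℕ} (a : Fin r → ℂ) (δ : Fin r → Derivation ℤ ℂ ℂ)
    (hd : ∀ i j, δ i (a j) = if i = j then 1 else 0) (F : Subfield ℂ)
    (hF : ∀ i, ∀ x ∈ F, δ i x = 0) (n : ℕ) : ∀ h : MvPolynomial (Fin r) F,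
    (∀ m : Fin r →₀ ℕ, n < m.degree → coeff m h = 0) → aeval a h = 0 → h = 0 := by
  induction n with
  | zero =>
    intro h hm h0
    refine const_of a F h (fun m hm0 => hm m ?_) h0
    rw [Nat.pos_iff_ne_zero]
    intro h1
    exact hm0 ((Finsupp.degree_eq_zero_iff m).1 h1)
  | succ n ih =>
    intro h hm h0
    have hp : ∀ i, pderiv i h = 0 := by
      intro i
      refine ih _ (fun m hmn => ?_) ?_
      · rw [coeff_pderiv, hm, zero_mul]
        rw [map_add, Finsupp.degree_single]
        omega
      · rw [← chain a δ hd F hF, h0, map_zero]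
    refine const_of a F h (fun m hm0 => ?_) h0
    obtain ⟨i, hi⟩ := Finsupp.ne_iff.1 hm0
    have h1 : m - Finsupp.single i 1 + Finsupp.single i 1 = m := by
      refine tsub_add_cancel_of_le ?_
      rw [Finsupp.single_le_iff]
      exact Nat.one_le_iff_ne_zero.2 hi
    have h2 := coeff_pderiv (i := i) h (m - Finsupp.single i 1)
    rw [hp i, coeff_zero, h1] at h2
    rcases mul_eq_zero.1 h2.symm with h3 | h3
    · exact h3
    · exfalso
      have h4 : ((((m - Finsupp.single i 1 : Fin r →₀ ℕ) i) + 1 : ℕ) : F) = 0 := by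
        push_cast
        exact h3
      exact absurd (Nat.cast_eq_zero.1 h4) (by omega)

theorem main : Pool.Agent.W422.GC.S_AI := by
  intro r a δ hd F hF
  rw [algebraicIndependent_iff]
  intro h h0
  exact deg_ind a δ hd F hF h.totalDegree h (fun m hm => by
    rw [← notMem_support_iff]
    intro hs
    have := le_totalDegree hs
    rw [Finsupp.degree_eq_sum] at hm
    rw [Finsupp.sum_fintype _ _ (fun _ => rfl)] at this
    omega) h0

end Pool.Agent.W363.GC
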